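import Pool.Agent.Helper85.ProP.SysThm

/-!
Soundness and completeness of `Sys.Good` for systems whose times are numbered by an initial segment
of the natural numbers.
-/

set_option autoImplicit false

namespace Pool.Agent.Helper85.ProF

open Function Relation Pool.Agent.Helper85.ProP

section sound

variable {X : Type*} (S : Sys X) (ν : X → ℕ)

theorem sound_nu (hle : ∀ h k, S.I h → S.I k → (S.le h k ↔ ν k ≤ ν h)) (hT : ∀ h, S.T h → S.I h)
    (hseg : ∀ k, S.I k → ∀ m < ν k, ∃ h, S.I h ∧ ν h = m)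
    {K : ℕ} {M : List Tr} {q0 qf : ℕ} {Z : X} {n : ℕ} (hM : ∀ t ∈ M, t.r < K) (hK : 1 ≤ K)
    (hZ : S.Idx n Z) (hG : S.Good K M q0 qf Z) :
    ∃ c, ReflTransGen (mstep M) (cinit q0 n) c ∧ c 0 = qf := by
  classical
  obtain ⟨hchain, hfun, hinit, hstep, hhalt⟩ := hG
  have hlt : ∀ h k, S.I h → S.I k → (S.lt h k ↔ ν h < ν k) := by
    intro h k hh hk
    simp only [Sys.lt, hle _ _ hh hk, hle _ _ hk hh]
    omega
  have hsucc : ∀ h k, S.Succ h k → S.I h ∧ S.I k ∧ ν k = ν h + 1 := by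
    rintro h k ⟨hh, hk, h1, h3⟩
    rw [hlt _ _ hh hk] at h1
    refine ⟨hh, hk, ?_⟩
    by_contra hne
    obtain ⟨l, hl, hl'⟩ := hseg k hk (ν h + 1) (by omega)
    rcases h3 l hl with h4 | h4
    · rw [hle _ _ hl hk] at h4; omega
    · rw [hle _ _ hh hl] at h4; omega
  have hidx : ∀ i k, S.Idx i k → S.I k ∧ ν k = i := by
    intro i
    induction i with
    | zero =>
      rintro k ⟨hk, hall⟩
      refine ⟨hk, ?_⟩
      by_contra hne
      obtain ⟨l, hl, hl'⟩ := hseg k hk 0 (by omega)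
      have := hall l hl
      rw [hle _ _ hl hk] at this
      omega
    | succ i ih =>
      rintro k ⟨h, h1, h2⟩
      obtain ⟨a1, a2, a3⟩ := hsucc h k h1
      exact ⟨a2, by rw [a3, (ih h h2).2]⟩
  -- the configuration at the time `h`
  set c : X → ℕ → ℕ := fun h j =>
    if hj : j ≤ K ∧ ∃ k, S.I k ∧ S.Rel j h k then ν (Classical.choose hj.2) else 0 with hc
  have hcv : ∀ h, S.T h → ∀ j ≤ K, ∀ k, S.I k → S.Rel j h k → c h j = ν k := by
    intro h hh j hj k hk hR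
    have hj' : j ≤ K ∧ ∃ k, S.I k ∧ S.Rel j h k := ⟨hj, k, hk, hR⟩
    simp only [hc, dif_pos hj']
    have hs := Classical.choose_spec hj'.2
    have hr : j ∈ Finset.range (K + 1) := Finset.mem_range.2 (by omega)
    have h1 := hfun j hr h hh _ hs k ⟨hk, hR⟩
    have h2 := hfun j hr h hh _ ⟨hk, hR⟩ _ hs
    rw [hle _ _ hs.1 hk] at h1
    rw [hle _ _ hk hs.1] at h2
    omega
  have hcz : ∀ h j, K < j → c h j = 0 := by
    intro h j hj
    simp only [hc]
    rw [dif_neg]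
    rintro ⟨h1, -⟩
    omega
  have hZI := (hidx _ _ hZ).1
  have hfirst : ∀ h, S.first h → c h = cinit q0 n := by
    intro h hh
    obtain ⟨⟨k0, hk0, hR0⟩, ⟨k1, ⟨hk1, hR1⟩, hk1', hk1''⟩, h2⟩ := hinit h hh
    funext j
    unfold cinit
    by_cases h0 : j = 0
    · subst h0
      rw [if_pos rfl, hcv h hh.1 0 (Nat.zero_le _) k0 (hidx _ _ hk0).1 hR0, (hidx _ _ hk0).2]
    rw [if_neg h0]
    by_cases h1 : j = 1
    · subst h1
      rw [if_pos rfl, hcv h hh.1 1 hK k1 hk1 hR1]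
      rw [hle _ _ hk1 hZI] at hk1'
      rw [hle _ _ hZI hk1] at hk1''
      have := (hidx _ _ hZ).2
      omega
    rw [if_neg h1]
    by_cases hjK : j ≤ K
    · obtain ⟨k, hk, hR⟩ := h2 j (Finset.mem_range.2 (by omega)) (by omega)
      rw [hcv h hh.1 j hjK k (hidx _ _ hk).1 hR, (hidx _ _ hk).2]
    · exact hcz h j (by omega)
  have hnext : ∀ h h', S.next h h' → mstep M (c h) (c h') := by
    intro h h' hn
    obtain ⟨t, ht, ⟨k1, hk1, hR1⟩, ⟨k2, hk2, hR2⟩, h3, h4⟩ := hstep h h' hn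
    have hTh := hn.1
    have hTh' := hn.2.1
    have htr := hM t ht
    refine ⟨t, ht, ?_, ?_, ?_, ?_⟩
    · rw [hcv h hTh 0 (Nat.zero_le _) k1 (hidx _ _ hk1).1 hR1, (hidx _ _ hk1).2]
    · rw [hcv h' hTh' 0 (Nat.zero_le _) k2 (hidx _ _ hk2).1 hR2, (hidx _ _ hk2).2]
    · intro j hj1 hj2
      by_cases hjK : j ≤ K
      · obtain ⟨k, hk, hRa, hRb⟩ := h3 j (Finset.mem_range.2 (by omega)) ⟨hj1, hj2⟩
        rw [hcv h hTh j hjK k hk hRa, hcv h' hTh' j hjK k hk hRb]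
      · rw [hcz h j (by omega), hcz h' j (by omega)]
    · cases hkind : t.kind with
      | inc =>
        rw [hkind] at h4
        obtain ⟨k, k', ha, hb, hs⟩ := h4
        obtain ⟨b1, b2, b3⟩ := hsucc _ _ hs
        show c h' (t.r + 1) = c h (t.r + 1) + 1
        rw [hcv h hTh _ (by omega) k b1 ha, hcv h' hTh' _ (by omega) k' b2 hb, b3]
      | dec =>
        rw [hkind] at h4
        obtain ⟨k, k', ha, hb, hs⟩ := h4
        obtain ⟨b1, b2, b3⟩ := hsucc _ _ hs
        show c h (t.r + 1) = c h' (t.r + 1) + 1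
        rw [hcv h hTh _ (by omega) k b2 ha, hcv h' hTh' _ (by omega) k' b1 hb, b3]
      | zero =>
        rw [hkind] at h4
        obtain ⟨k, hk, ha, hb⟩ := h4
        obtain ⟨b1, b2⟩ := hidx _ _ hk
        show c h (t.r + 1) = 0 ∧ c h' (t.r + 1) = 0
        rw [hcv h hTh _ (by omega) k b1 ha, hcv h' hTh' _ (by omega) k b1 hb, b2]
        exact ⟨rfl, rfl⟩
      | nop =>
        rw [hkind] at h4
        obtain ⟨k, hk, ha, hb⟩ := h4
        show c h (t.r + 1) = c h' (t.r + 1)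
        rw [hcv h hTh _ (by omega) k hk ha, hcv h' hTh' _ (by omega) k hk hb]
  have hreach : ∀ m h, S.T h → ν h = m → ReflTransGen (mstep M) (cinit q0 n) (c h) := by
    intro m
    induction m using Nat.strong_induction_on with
    | _ m ih =>
      intro h hh hm
      by_cases hf : S.first h
      · rw [hfirst h hf]
      · have hex : ∃ l, S.T l ∧ S.lt l h := by
          by_contra hcon
          push Not at hcon
          exact hf ⟨hh, hcon⟩
        set A : Set ℕ := {i | ∃ l, S.T l ∧ S.lt l h ∧ ν l = i} with hA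
        have hlt' : ∀ l, S.T l → S.lt l h → ν l < ν h := fun l hl h1 =>
          (hlt l h (hT l hl) (hT h hh)).1 h1
        have hAb : BddAbove A := by
          refine ⟨ν h, ?_⟩
          rintro i ⟨l, hl, hl', rfl⟩
          exact (hlt' l hl hl').le
        have hAne : A.Nonempty := by
          obtain ⟨l, hl, hl'⟩ := hex
          exact ⟨ν l, l, hl, hl', rfl⟩
        obtain ⟨l, hl, hl', hνl⟩ := Nat.sSup_mem hAne hAb
        have hnx : S.next l h := by
          refine ⟨hl, hh, hl', ?_⟩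
          rintro l' hl1 ⟨hl2, hl3⟩
          have h5 : ν l' ≤ sSup A := le_csSup hAb ⟨l', hl1, hl3, rfl⟩
          rw [← hνl] at h5
          rw [hlt _ _ (hT l hl) (hT l' hl1)] at hl2
          omega
        exact (ih (ν l) (by rw [← hm]; exact hlt' l hl hl') l hl rfl).tail (hnext l h hnx)
  obtain ⟨h, hh, k, hk, hR⟩ := hhalt
  exact ⟨c h, hreach _ h hh rfl, by
    rw [hcv h hh 0 (Nat.zero_le _) k (hidx _ _ hk).1 hR, (hidx _ _ hk).2]⟩

end sound

section complete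

variable {X : Type*} (S : Sys X) (ν : X → ℕ)

/-- successors -/
theorem succ_nu {w : ℕ} (hbd : ∀ h, S.I h → ν h ≤ w) (hsurj : ∀ n ≤ w, ∃ h, S.I h ∧ ν h = n)
    (hle : ∀ h k, S.I h → S.I k → (S.le h k ↔ ν k ≤ ν h)) (h k : X) (hh : S.I h) (hk : S.I k) :
    S.Succ h k ↔ ν k = ν h + 1 := by
  have hlt : ∀ h k, S.I h → S.I k → (S.lt h k ↔ ν h < ν k) := by
    intro h k hh hk
    simp only [Sys.lt, hle _ _ hh hk, hle _ _ hk hh]
    omega
  simp only [Sys.Succ, hh, hk, true_and, hlt _ _ hh hk]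
  constructor
  · rintro ⟨h1, h2⟩
    obtain ⟨l, hl, hl'⟩ := hsurj (ν h + 1) (by have := hbd k hk; omega)
    rcases h2 l hl with h3 | h3
    · rw [hle _ _ hl hk] at h3; omega
    · rw [hle _ _ hh hl] at h3; omega
  · intro h1
    refine ⟨by omega, fun l hl => ?_⟩
    rw [hle _ _ hl hk, hle _ _ hh hl]
    omega

/-- index classes -/
theorem idx_nu {w : ℕ} (hbd : ∀ h, S.I h → ν h ≤ w) (hsurj : ∀ n ≤ w, ∃ h, S.I h ∧ ν h = n)
    (hle : ∀ h k, S.I h → S.I k → (S.le h k ↔ ν k ≤ ν h)) (i : ℕ) (k : X) (hk : S.I k) :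
    S.Idx i k ↔ ν k = i := by
  have hsucc := succ_nu S ν hbd hsurj hle
  induction i generalizing k with
  | zero =>
    simp only [Sys.Idx, hk, true_and]
    constructor
    · intro h1
      obtain ⟨l, hl, hl'⟩ := hsurj 0 (Nat.zero_le _)
      have := h1 l hl
      rw [hle _ _ hl hk] at this
      omega
    · intro h1 h hh
      rw [hle _ _ hh hk]
      omega
  | succ i ih =>
    constructor
    · rintro ⟨h, h1, h2⟩
      have h3 := h1
      rw [hsucc h k h1.1 hk] at h3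
      have h4 := (ih h h1.1).1 h2
      omega
    · intro h1
      obtain ⟨l, hl, hl'⟩ := hsurj i (by have := hbd k hk; omega)
      refine ⟨l, ?_, (ih l hl).2 hl'⟩
      rw [hsucc l k hl hk]
      omega

theorem complete_nu {w : ℕ} (hbd : ∀ h, S.I h → ν h ≤ w) (hsurj : ∀ n ≤ w, ∃ h, S.I h ∧ ν h = n)
    (hle : ∀ h k, S.I h → S.I k → (S.le h k ↔ ν k ≤ ν h))
    (τ : ℕ → ℕ) (hτ : StrictMono τ) (N : ℕ) (hτw : τ N ≤ w)
    (hT : ∀ h, S.T h ↔ S.I h ∧ ∃ t ≤ N, ν h = τ t)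
    (c : ℕ → ℕ → ℕ) {K : ℕ} (hcw : ∀ t ≤ N, ∀ j ≤ K, c t j ≤ w)
    (hRel : ∀ j ≤ K, ∀ t ≤ N, ∀ h k, S.I h → S.I k → ν h = τ t → (S.Rel j h k ↔ ν k = c t j))
    {M : List Tr} {q0 qf : ℕ} {Z : X} {n : ℕ} (hM : ∀ t ∈ M, t.r < K) (hK : 1 ≤ K)
    (hc0 : c 0 = cinit q0 n) (hstep : ∀ t < N, mstep M (c t) (c (t + 1))) (hfin : c N 0 = qf)
    (hZ : S.I Z) (hZn : ν Z = n) : S.Good K M q0 qf Z := by
  have hlt : ∀ h k, S.I h → S.I k → (S.lt h k ↔ ν h < ν k) := by
    intro h k hh hk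
    simp only [Sys.lt, hle _ _ hh hk, hle _ _ hk hh]
    omega
  have hsucc := succ_nu S ν hbd hsurj hle
  have hidx := idx_nu S ν hbd hsurj hle
  have hTI : ∀ h, S.T h → S.I h := fun h hh => ((hT h).1 hh).1
  have hτle : ∀ t ≤ N, τ t ≤ w := fun t ht => (hτ.monotone ht).trans hτw
  refine ⟨?_, ?_, ?_, ?_, ?_⟩
  · intro h hh k hk
    rw [hle _ _ hh hk, hle _ _ hk hh]
    omega
  · rintro j hj h hh k ⟨hk, hR⟩ k' ⟨hk', hR'⟩
    rw [Finset.mem_range] at hj
    obtain ⟨hhI, t, ht, hht⟩ := (hT h).1 hh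
    rw [hRel j (by omega) t ht h k hhI hk hht] at hR
    rw [hRel j (by omega) t ht h k' hhI hk' hht] at hR'
    rw [hle _ _ hk hk']
    omega
  · rintro h ⟨hh, hh'⟩
    obtain ⟨hhI, t, ht, hht⟩ := (hT h).1 hh
    have ht0 : ν h = τ 0 := by
      by_contra hne
      have : t ≠ 0 := by
        rintro rfl
        exact hne hht
      obtain ⟨l, hl, hl'⟩ := hsurj (τ 0) (hτle 0 (Nat.zero_le _))
      have hlT : S.T l := (hT l).2 ⟨hl, 0, Nat.zero_le _, hl'⟩
      apply hh' l hlT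
      rw [hlt _ _ hl hhI, hl', hht]
      exact hτ (by omega)
    have hR : ∀ j ≤ K, ∀ k, S.I k → (S.Rel j h k ↔ ν k = cinit q0 n j) := by
      intro j hj k hk
      rw [hRel j hj 0 (Nat.zero_le _) h k hhI hk ht0, hc0]
    refine ⟨?_, ?_, ?_⟩
    · have hq0 : q0 ≤ w := by
        have := hcw 0 (Nat.zero_le _) 0 (Nat.zero_le _)
        rw [hc0] at this
        simpa [cinit] using this
      obtain ⟨k, hk, hk'⟩ := hsurj q0 hq0
      exact ⟨k, (hidx _ _ hk).2 hk', (hR 0 (by omega) k hk).2 (by simp [cinit, hk'])⟩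
    · refine ⟨Z, ⟨hZ, (hR 1 hK Z hZ).2 (by simp [cinit, hZn])⟩, ?_⟩
      rw [hle _ _ hZ hZ]
      exact ⟨le_rfl, le_rfl⟩
    · intro j hj hj2
      rw [Finset.mem_range] at hj
      obtain ⟨k, hk, hk'⟩ := hsurj 0 (Nat.zero_le _)
      refine ⟨k, (hidx _ _ hk).2 hk', (hR j (by omega) k hk).2 ?_⟩
      unfold cinit
      rw [if_neg (by omega), if_neg (by omega), hk']
  · rintro h h' ⟨hh, hh', hl, hno⟩
    obtain ⟨hhI, t, ht, hht⟩ := (hT h).1 hh
    obtain ⟨hhI', t', ht', hht'⟩ := (hT h').1 hh'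
    rw [hlt _ _ hhI hhI', hht, hht', hτ.lt_iff_lt] at hl
    have htt : t' = t + 1 := by
      by_contra hne
      obtain ⟨l, hlI, hl'⟩ := hsurj (τ (t + 1)) (hτle _ (by omega))
      have hlT : S.T l := (hT l).2 ⟨hlI, t + 1, by omega, hl'⟩
      apply hno l hlT
      rw [hlt _ _ hhI hlI, hlt _ _ hlI hhI', hht, hht', hl', hτ.lt_iff_lt, hτ.lt_iff_lt]
      omega
    subst htt
    obtain ⟨tr, htr, h1, h2, h3, h4⟩ := hstep t (by omega)
    have htrr := hM tr htr
    have hR : ∀ j ≤ K, ∀ k, S.I k → (S.Rel j h k ↔ ν k = c t j) := fun j hj k hk =>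
      hRel j hj t ht h k hhI hk hht
    have hR' : ∀ j ≤ K, ∀ k, S.I k → (S.Rel j h' k ↔ ν k = c (t + 1) j) := fun j hj k hk =>
      hRel j hj (t + 1) ht' h' k hhI' hk hht'
    refine ⟨tr, htr, ?_, ?_, ?_, ?_⟩
    · obtain ⟨k, hk, hk'⟩ := hsurj tr.q (by rw [← h1]; exact hcw t ht 0 (Nat.zero_le _))
      exact ⟨k, (hidx _ _ hk).2 hk', (hR 0 (by omega) k hk).2 (by rw [h1, hk'])⟩
    · obtain ⟨k, hk, hk'⟩ := hsurj tr.q' (by rw [← h2]; exact hcw (t + 1) ht' 0 (Nat.zero_le _))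
      exact ⟨k, (hidx _ _ hk).2 hk', (hR' 0 (by omega) k hk).2 (by rw [h2, hk'])⟩
    · rintro j hj ⟨hj1, hj2⟩
      rw [Finset.mem_range] at hj
      obtain ⟨k, hk, hk'⟩ := hsurj (c t j) (hcw t ht j (by omega))
      exact ⟨k, hk, (hR j (by omega) k hk).2 hk', (hR' j (by omega) k hk).2
        (by rw [h3 j hj1 hj2, hk'])⟩
    · cases hkind : tr.kind with
      | inc =>
        rw [hkind] at h4
        change c (t + 1) (tr.r + 1) = c t (tr.r + 1) + 1 at h4
        obtain ⟨k, hk, hk'⟩ := hsurj (c t (tr.r + 1)) (hcw t ht _ (by omega))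
        obtain ⟨k', hkk, hkk'⟩ := hsurj (c (t + 1) (tr.r + 1)) (hcw (t + 1) ht' _ (by omega))
        refine ⟨k, k', (hR _ (by omega) k hk).2 hk', (hR' _ (by omega) k' hkk).2 hkk', ?_⟩
        rw [hsucc _ _ hk hkk]
        omega
      | dec =>
        rw [hkind] at h4
        change c t (tr.r + 1) = c (t + 1) (tr.r + 1) + 1 at h4
        obtain ⟨k, hk, hk'⟩ := hsurj (c t (tr.r + 1)) (hcw t ht _ (by omega))
        obtain ⟨k', hkk, hkk'⟩ := hsurj (c (t + 1) (tr.r + 1)) (hcw (t + 1) ht' _ (by omega))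
        refine ⟨k, k', (hR _ (by omega) k hk).2 hk', (hR' _ (by omega) k' hkk).2 hkk', ?_⟩
        rw [hsucc _ _ hkk hk]
        omega
      | zero =>
        rw [hkind] at h4
        change c t (tr.r + 1) = 0 ∧ c (t + 1) (tr.r + 1) = 0 at h4
        obtain ⟨k, hk, hk'⟩ := hsurj 0 (Nat.zero_le _)
        exact ⟨k, (hidx _ _ hk).2 hk', (hR _ (by omega) k hk).2 (by omega),
          (hR' _ (by omega) k hk).2 (by omega)⟩
      | nop =>
        rw [hkind] at h4
        change c t (tr.r + 1) = c (t + 1) (tr.r + 1) at h4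
        obtain ⟨k, hk, hk'⟩ := hsurj (c t (tr.r + 1)) (hcw t ht _ (by omega))
        exact ⟨k, hk, (hR _ (by omega) k hk).2 hk', (hR' _ (by omega) k hk).2 (by omega)⟩
  · obtain ⟨h, hh, hh'⟩ := hsurj (τ N) hτw
    refine ⟨h, (hT h).2 ⟨hh, N, le_rfl, hh'⟩, ?_⟩
    obtain ⟨k, hk, hk'⟩ := hsurj qf (by rw [← hfin]; exact hcw N le_rfl 0 (Nat.zero_le _))
    refine ⟨k, (hidx _ _ hk).2 hk', (hRel 0 (by omega) N le_rfl h k hh hk hh').2 ?_⟩
    rw [hfin, hk']

end complete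

section index

variable {X : Type*} (S : Sys X)

/-- the existence of a numbering -/
theorem exists_nu
    (htr : ∀ a, S.I a → ∀ b, S.I b → ∀ c, S.I c → S.le a b → S.le b c → S.le a c)
    (hpred : ∀ k, S.I k → S.Idx 0 k ∨ ∃ h, S.Succ h k)
    (hwf : ¬ ∃ h : ℕ → X, ∀ i, S.I (h i) ∧ ¬ S.le (h (i + 1)) (h i)) :
    ∃ ν : X → ℕ, (∀ h k, S.I h → S.I k → (S.le h k ↔ ν k ≤ ν h)) ∧
      ∀ k, S.I k → ∀ m < ν k, ∃ h, S.I h ∧ ν h = m := by
  classical
  have hIdxI : ∀ i k, S.Idx i k → S.I k := by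
    intro i k h
    cases i with
    | zero => exact h.1
    | succ i =>
      obtain ⟨h', h1, -⟩ := h
      exact h1.2.1
  -- existence
  have hw : WellFounded (fun h k : X => S.I h ∧ S.I k ∧ S.lt h k) := by
    rw [wellFounded_iff_isEmpty_descending_chain]
    refine ⟨fun f => hwf ⟨f.1, fun i => ?_⟩⟩
    exact ⟨(f.2 i).2.1, (f.2 i).2.2.2⟩
  have hex : ∀ k, S.I k → ∃ n, S.Idx n k := by
    intro k
    induction k using hw.induction with
    | _ k ih =>
      intro hk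
      rcases hpred k hk with h0 | ⟨h, hs⟩
      · exact ⟨0, h0⟩
      · obtain ⟨n, hn⟩ := ih h ⟨hs.1, hk, hs.2.2.1⟩ hs.1
        exact ⟨n + 1, h, hs, hn⟩
  -- equal indices
  have hA : ∀ i h k, S.Idx i h → S.Idx i k → S.le h k := by
    intro i
    induction i with
    | zero =>
      intro h k hh hk
      exact hk.2 h hh.1
    | succ i ih =>
      rintro h k ⟨h', hs, hi⟩ ⟨k', hs', hi'⟩
      -- `Succ h' h`, `Succ k' k`
      rcases hs'.2.2.2 h hs.2.1 with h1 | h1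
      · exact h1
      · have h2 := ih h' k' hi hi'
        -- `le k' h` and `le h' k'`
        exact absurd (htr h' hs.1 k' hs'.1 h hs.2.1 h2 h1) hs.2.2.1.2
  -- smaller index
  have hB : ∀ j i, i < j → ∀ h k, S.Idx i h → S.Idx j k → S.le k h ∧ ¬ S.le h k := by
    intro j
    induction j with
    | zero => intro i hi; omega
    | succ j ih =>
      rintro i hi h k hh ⟨k', hs, hk'⟩
      have hI := hIdxI _ _ hh
      have h1 : S.le k' h := by
        rcases Nat.lt_succ_iff_lt_or_eq.1 hi with h2 | rfl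
        · exact (ih i h2 h k' hh hk').1
        · exact hA _ _ _ hk' hh
      refine ⟨htr k hs.2.1 k' hs.1 h hI hs.2.2.1.1 h1, fun h2 => ?_⟩
      exact hs.2.2.1.2 (htr k' hs.1 h hI k hs.2.1 h1 h2)
  set ν : X → ℕ := fun k => if hk : S.I k then Classical.choose (hex k hk) else 0 with hν
  have hνI : ∀ k, S.I k → S.Idx (ν k) k := by
    intro k hk
    simp only [hν, dif_pos hk]
    exact Classical.choose_spec (hex k hk)
  refine ⟨ν, fun h k hh hk => ⟨fun h1 => ?_, fun h1 => ?_⟩, fun k hk m hm => ?_⟩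
  · by_contra hlt
    exact (hB _ _ (not_le.1 hlt) h k (hνI h hh) (hνI k hk)).2 h1
  · rcases h1.eq_or_lt with h2 | h2
    · exact hA (ν k) h k (by rw [h2]; exact hνI h hh) (hνI k hk)
    · exact (hB _ _ h2 k h (hνI k hk) (hνI h hh)).1
  · have hd : ∀ j, ∀ k, S.Idx j k → ∀ m ≤ j, ∃ h, S.Idx m h := by
      intro j
      induction j with
      | zero =>
        intro k hk m hm
        have : m = 0 := by omega
        subst this
        exact ⟨k, hk⟩
      | succ j ih =>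
        intro k hk m hm
        rcases Nat.eq_or_lt_of_le hm with rfl | h1
        · exact ⟨k, hk⟩
        · obtain ⟨h, -, h2⟩ := hk
          exact ih h h2 m (by omega)
    obtain ⟨h, hh⟩ := hd _ k (hνI k hk) m hm.le
    have hI := hIdxI _ _ hh
    refine ⟨h, hI, ?_⟩
    rcases Nat.lt_trichotomy (ν h) m with h1 | h1 | h1
    · exact absurd (hA _ _ _ (hνI h hI) (hνI h hI)) (hB _ _ h1 h h (hνI h hI) hh).2
    · exact h1
    · exact absurd (hA _ _ _ (hνI h hI) (hνI h hI)) (hB _ _ h1 h h hh (hνI h hI)).2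

end index

end Pool.Agent.Helper85.ProF
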