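import Pool.Agent.Helper85.ProP.Undec

/-!
Undecidability from a definable family of systems and a definable relation.
-/

set_option autoImplicit false

namespace Pool.Agent.Helper85.ProF

open Function Relation Pool.Agent.Helper85.ProP

/-- Undecidability criterion. -/
theorem undec_of_rel {G : Type*} [Group G] {m : ℕ} {S : (ℕ → G) → Sys G} (H : DSys m S)
    {Q : (ℕ → G) → G → Prop} (HQ : D1 m Q)
    (St : Set ℕ) (hSt : ¬ ComputablePred (fun n => n ∈ St))
    (hsound : ∀ v Z n, Q v Z → (S v).Idx n Z → n ∈ St)
    (hcompl : ∀ n ∈ St, ∃ v Z, Q v Z ∧ (S v).Idx n Z) :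
    ¬ DecTh G := by
  rintro ⟨f, hf, hf'⟩
  -- the formulas
  obtain ⟨ψ, hψ1, hψ2⟩ := HQ.df (m + 1) (Nat.le_succ m) _ (TF.last m)
  obtain ⟨σ, hσ1, hσ2⟩ := H.succ.df (m + 2) (by omega) _ _ (TF.last (m + 1))
    (TF.last m).succ
  obtain ⟨ζ, hζ1, hζ2⟩ := (H.idx 0).df (m + 1) (Nat.le_succ m) _ (TF.last m)
  replace hψ2 : ∀ v : ℕ → G, ψ.Sat v ↔ Q v (v m) := hψ2
  replace hσ2 : ∀ v : ℕ → G, σ.Sat v ↔ (S v).Succ (v (m + 1)) (v m) := hσ2
  replace hζ2 : ∀ v : ℕ → G, ζ.Sat v ↔ (S v).Idx 0 (v m) := hζ2
  set Eq : Fm := .eq (.var m) (.var (m + 1)) with hEq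
  set φ : ℕ → Fm := fun n => Nat.rec ζ
    (fun _ χ => Fm.ex (m + 1) (.and σ (Fm.ex m (.and Eq χ)))) n with hφ
  have hφs : ∀ n, φ (n + 1) = Fm.ex (m + 1) (.and σ (Fm.ex m (.and Eq (φ n)))) := fun n => rfl
  have hφfv : ∀ n, ∀ i ∈ (φ n).fv, i < m + 1 := by
    intro n
    induction n with
    | zero => exact hζ1
    | succ n ih =>
      intro i hi
      rw [hφs, Fm.fv_ex, Finset.mem_erase] at hi
      obtain ⟨h1, h2⟩ := hi
      simp only [Fm.fv, Fm.fv_ex, Finset.mem_union, Finset.mem_erase, hEq, Tm.vars,
        Finset.mem_singleton] at h2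
      rcases h2 with h2 | ⟨h2, (h3 | h3) | h3⟩
      · have := hσ1 i h2; omega
      · omega
      · omega
      · exact ih i h3
  have hSatφ : ∀ n (v : ℕ → G), (φ n).Sat v ↔ (S v).Idx n (v m) := by
    intro n
    induction n with
    | zero => exact hζ2
    | succ n ih =>
      intro v
      rw [hφs, Fm.sat_ex]
      constructor
      · rintro ⟨a, h1, h2⟩
        rw [hσ2] at h1
        rw [Fm.sat_ex] at h2
        obtain ⟨b, h3, h4⟩ := h2
        simp only [hEq, Fm.Sat, Tm.eval] at h3
        rw [update_self, update_of_ne (by omega), update_self] at h3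
        subst h3
        rw [ih, update_self] at h4
        have e1 := congrFun ((H.idx n).dep (update v (m + 1) b) m b le_rfl) b
        have e2 := congrFun ((H.idx n).dep v (m + 1) b (Nat.le_succ m)) b
        try simp only at e1 e2 h4
        rw [e1, e2] at h4
        have e3 := congrFun (congrFun (H.succ.dep v (m + 1) b (Nat.le_succ m)) b) (v m)
        rw [update_self, update_of_ne (by omega)] at h1
        try simp only at e3 h1
        rw [e3] at h1
        exact ⟨b, h1, h4⟩
      · rintro ⟨b, h1, h4⟩
        refine ⟨b, ?_, ?_⟩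
        · rw [hσ2]
          have e3 := congrFun (congrFun (H.succ.dep v (m + 1) b (Nat.le_succ m)) b) (v m)
          rw [update_self, update_of_ne (by omega)]
          try simp only at e3 ⊢
          rw [e3]
          exact h1
        · rw [Fm.sat_ex]
          refine ⟨b, ?_, ?_⟩
          · simp only [hEq, Fm.Sat, Tm.eval]
            rw [update_self, update_of_ne (by omega), update_self]
          · rw [ih, update_self]
            have e1 := congrFun ((H.idx n).dep (update v (m + 1) b) m b le_rfl) b
            have e2 := congrFun ((H.idx n).dep v (m + 1) b (Nat.le_succ m)) b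
            try simp only at e1 e2 ⊢
            rw [e1, e2]
            exact h4
  set θ : ℕ → Fm := fun n => Fm.exs m (Fm.ex m (.and (φ n) ψ)) with hθ
  have hθfv : ∀ n, (θ n).fv = ∅ := by
    intro n
    refine Fm.fv_exs _ _ fun i hi => ?_
    rw [Fm.fv_ex, Finset.mem_erase] at hi
    obtain ⟨h1, h2⟩ := hi
    simp only [Fm.fv, Finset.mem_union] at h2
    rcases h2 with h2 | h2
    · have := hφfv n i h2; omega
    · have := hψ1 i h2; omega
  have hθsat : ∀ n (v : ℕ → G), (θ n).Sat v ↔ n ∈ St := by
    intro n v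
    rw [hθ, Fm.sat_exs]
    constructor
    · rintro ⟨w, -, h⟩
      rw [Fm.sat_ex] at h
      obtain ⟨Z, h1, h2⟩ := h
      rw [hSatφ] at h1
      rw [hψ2] at h2
      rw [update_self] at h1 h2
      have e1 := congrFun ((H.idx n).dep w m Z le_rfl) Z
      have e2 := congrFun (HQ.dep w m Z le_rfl) Z
      try simp only at e1 e2 h1 h2
      rw [e1] at h1
      rw [e2] at h2
      exact hsound w Z n h2 h1
    · intro hn
      obtain ⟨w0, Z, h2, h1⟩ := hcompl n hn
      -- only the first `m` coordinates of `w0` matter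
      set w : ℕ → G := fun i => if i < m then w0 i else v i with hw
      refine ⟨w, fun i hi => by simp [hw, not_lt.2 hi], ?_⟩
      rw [Fm.sat_ex]
      have hagree : ∀ i < m + 1, update w m Z i = update w0 m Z i := by
        intro i hi
        by_cases him : i = m
        · subst him; simp
        · rw [update_of_ne him, update_of_ne him]
          have : i < m := by omega
          simp [hw, this]
      refine ⟨Z, ?_, ?_⟩
      · rw [(φ n).sat_congr _ (update w0 m Z) (fun i hi => hagree i (hφfv n i hi)), hSatφ,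
          update_self]
        have e1 := congrFun ((H.idx n).dep w0 m Z le_rfl) Z
        try simp only at e1 ⊢
        rw [e1]
        exact h1
      · rw [ψ.sat_congr _ (update w0 m Z) (fun i hi => hagree i (hψ1 i hi)), hψ2, update_self]
        have e2 := congrFun (HQ.dep w0 m Z le_rfl) Z
        try simp only at e2 ⊢
        rw [e2]
        exact h2
  -- computability
  set F : ℕ → ℕ := fun c => exC (m + 1) (Nat.pair 2 (Nat.pair σ.code
    (exC m (Nat.pair 2 (Nat.pair Eq.code c))))) with hF
  have hFp : Primrec F := by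
    refine (primrec_exC (m + 1)).comp (Primrec₂.natPair.comp (Primrec.const 2)
      (Primrec₂.natPair.comp (Primrec.const _) ((primrec_exC m).comp
        (Primrec₂.natPair.comp (Primrec.const 2)
          (Primrec₂.natPair.comp (Primrec.const _) Primrec.id)))))
  have hφc : ∀ n, (φ n).code = F^[n] ζ.code := by
    intro n
    induction n with
    | zero => rfl
    | succ n ih =>
      rw [iterate_succ_apply', ← ih, hφs]
      rfl
  have hθc : ∀ n, (θ n).code = exsC m (exC m (Nat.pair 2 (Nat.pair (F^[n] ζ.code) ψ.code))) := by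
    intro n
    rw [← hφc, hθ]
    simp only [Fm.code_exs, Fm.code_ex, Fm.code]
  have hit : Primrec (fun n : ℕ => F^[n] ζ.code) :=
    Primrec.nat_iterate (f := fun n : ℕ => n) (g := fun _ : ℕ => ζ.code) (h := fun _ c => F c)
      Primrec.id (Primrec.const _) (hFp.comp Primrec.snd).to₂
  have hcomp : Primrec (fun n => (θ n).code) := by
    have : (fun n => (θ n).code) =
        fun n => exsC m (exC m (Nat.pair 2 (Nat.pair (F^[n] ζ.code) ψ.code))) := funext hθc
    rw [this]
    exact (primrec_exsC m).comp ((primrec_exC m).comp (Primrec₂.natPair.comp (Primrec.const 2)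
      (Primrec₂.natPair.comp hit (Primrec.const _))))
  apply hSt
  rw [ComputablePred.computable_iff]
  refine ⟨fun n => f (θ n).code, hf.comp hcomp.to_comp, ?_⟩
  funext n
  have h1 := hf' (θ n) (hθfv n)
  rw [h1, eq_iff_iff]
  constructor
  · intro hn v
    exact (hθsat n v).2 hn
  · intro h
    exact (hθsat n (fun _ => 1)).1 (h _)

end Pool.Agent.Helper85.ProF
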