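import Pool.Agent.Helper85.ProF.DefC
import Pool.Agent.Helper85.ProF.SysNu
import Pool.Agent.Helper85.ProF.UndecQ
import Pool.Agent.Helper85.ProP.GCompl

/-!
Undecidability from the interface `EngC`.
-/

set_option autoImplicit false
set_option linter.unusedSectionVars false
set_option linter.checkUnivs false

namespace Pool.Agent.Helper85.ProF

open Function Relation Pool.Agent.Helper85.ProP Pool.Agent.Helper30.Full

universe u

variable {G : Type u} [Group G] {p : ℕ}

/-- the system of a configuration and parameters -/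
def sysF (c : Cf (carG p G)) (t : ℕ) (u₀ u₁ l yT yV τ₀ : G) (x : ℕ → G) : Sys G where
  I := cII c u₀ u₁ l yT
  le h k := ¬ cBf c t h k
  T h := cII c u₀ u₁ l yT h ∧ ¬ cBf c t h τ₀
  Rel j h k := cRR c t u₀ u₁ l yT yV (x j) h k

/-- the configuration given by the assignment -/
def cfV (p n : ℕ) (V : Subgroup G) (ops : List Op) (v : ℕ → G) : Cf (carG p G) :=
  run (C := carG p G) (progAt ops 1 v) (baseG p n V (v 0))

/-- the system given by the assignment -/
def sysV (p n t : ℕ) (V : Subgroup G) (ops : List Op) (k₁ K : ℕ) (v : ℕ → G) : Sys G :=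
  sysF (cfV p n V ops v) t (v k₁) (v (k₁ + 1)) (v (k₁ + 2)) (v (k₁ + 3)) (v (k₁ + 4)) (v (k₁ + 5))
    (fun j => v (k₁ + 6 + min j K))

/-- the additional conditions -/
def Extra (p n t : ℕ) (V : Subgroup G) (ops : List Op) (k₁ K : ℕ) (v : ℕ → G) : Prop :=
  (∀ o ∈ progAt ops 1 v, (baseG p n V (v 0)).S o.2.1 ∧ o.2.2 ∈ V) ∧
  ((∀ a, (sysV p n t V ops k₁ K v).I a → ∀ b, (sysV p n t V ops k₁ K v).I b →
    ∀ c, (sysV p n t V ops k₁ K v).I c → (sysV p n t V ops k₁ K v).le a b →
      (sysV p n t V ops k₁ K v).le b c → (sysV p n t V ops k₁ K v).le a c) ∧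
  (∀ k, (sysV p n t V ops k₁ K v).I k → (sysV p n t V ops k₁ K v).Idx 0 k ∨
    ∃ h, (sysV p n t V ops k₁ K v).Succ h k))

section Def

variable {V : Subgroup G} (hV : D1 0 (fun _ : ℕ → G => (· ∈ V))) (n t : ℕ) (ops : List Op)
  (k₁ K : ℕ)

include hV

lemma dcf_cfV : DCf (fun v => cfV p n V ops v) := (dcf_base hV n).run' ops 1

lemma ds_I {σ : (ℕ → G) → (ℕ → G)} (hσ : TS σ) {k : (ℕ → G) → G} (hk : TT k) :
    DS (fun w => (sysV p n t V ops k₁ K (σ w)).I (k w)) :=
  (dcf_cfV (p := p) hV n ops).ii hσ (hσ _) (hσ _) (hσ _) (hσ _) hk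

lemma ds_le {σ : (ℕ → G) → (ℕ → G)} (hσ : TS σ) {h k : (ℕ → G) → G} (hh : TT h) (hk : TT k) :
    DS (fun w => (sysV p n t V ops k₁ K (σ w)).le (h w) (k w)) :=
  ((dcf_cfV (p := p) hV n ops).bf hσ t hh hk).not

lemma ds_succ {σ : (ℕ → G) → (ℕ → G)} (hσ : TS σ) {h k : (ℕ → G) → G} (hh : TT h) (hk : TT k) :
    DS (fun w => (sysV p n t V ops k₁ K (σ w)).Succ (h w) (k w)) := by
  unfold Sys.Succ Sys.lt
  exact (ds_I hV n t ops k₁ K hσ hh).and ((ds_I hV n t ops k₁ K hσ hk).and
    (((ds_le hV n t ops k₁ K hσ hk hh).and (ds_le hV n t ops k₁ K hσ hh hk).not).and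
      (DS.all ((ds_I hV n t ops k₁ K hσ.tl (TT.var 0)).imp
        ((ds_le hV n t ops k₁ K hσ.tl (TT.var 0) hk.tl).or
          (ds_le hV n t ops k₁ K hσ.tl hh.tl (TT.var 0)))))))

lemma ds_idx0 {σ : (ℕ → G) → (ℕ → G)} (hσ : TS σ) {k : (ℕ → G) → G} (hk : TT k) :
    DS (fun w => (sysV p n t V ops k₁ K (σ w)).Idx 0 (k w)) := by
  unfold Sys.Idx
  exact (ds_I hV n t ops k₁ K hσ hk).and (DS.all ((ds_I hV n t ops k₁ K hσ.tl (TT.var 0)).imp
        (ds_le hV n t ops k₁ K hσ.tl (TT.var 0) hk.tl)))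

lemma ds_extra : DS (fun w => Extra p n t V ops k₁ K w) := by
  have hσ : TS (fun w : ℕ → G => w) := TS.id
  unfold Extra
  refine (ds_adm hV n ops 1).and ((DS.all ((ds_I hV n t ops k₁ K hσ.tl (TT.var 0)).imp
    (DS.all ((ds_I hV n t ops k₁ K hσ.tl.tl (TT.var 0)).imp (DS.all
      ((ds_I hV n t ops k₁ K hσ.tl.tl.tl (TT.var 0)).imp
        ((ds_le hV n t ops k₁ K hσ.tl.tl.tl (TT.var 2) (TT.var 1)).imp
          ((ds_le hV n t ops k₁ K hσ.tl.tl.tl (TT.var 1) (TT.var 0)).imp
            (ds_le hV n t ops k₁ K hσ.tl.tl.tl (TT.var 2) (TT.var 0)))))))))).and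
    (DS.all ((ds_I hV n t ops k₁ K hσ.tl (TT.var 0)).imp
      ((ds_idx0 hV n t ops k₁ K hσ.tl (TT.var 0)).or
        (DS.ex (ds_succ hV n t ops k₁ K hσ.tl.tl (TT.var 0) (TT.var 1)))))))

omit hV in
lemma cfV_congr {v v' : ℕ → G} (h : ∀ i < 1 + 2 * ops.length, v i = v' i) :
    cfV p n V ops v = cfV p n V ops v' := by
  unfold cfV
  rw [progAt_congr ops 1 v v' h, h 0 (by omega)]

omit hV in
lemma sysV_congr (hk : 1 + 2 * ops.length ≤ k₁) {v v' : ℕ → G} (h : ∀ i < k₁ + 7 + K, v i = v' i) :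
    sysV p n t V ops k₁ K v = sysV p n t V ops k₁ K v' := by
  unfold sysV
  rw [cfV_congr n ops (fun i hi => h i (by omega)), h k₁ (by omega), h (k₁ + 1) (by omega),
    h (k₁ + 2) (by omega), h (k₁ + 3) (by omega), h (k₁ + 4) (by omega), h (k₁ + 5) (by omega)]
  have : (fun j => v (k₁ + 6 + min j K)) = fun j => v' (k₁ + 6 + min j K) :=
    funext fun j => h _ (by have := min_le_right j K; omega)
  rw [this]

omit hV in
lemma extra_congr (hk : 1 + 2 * ops.length ≤ k₁) {v v' : ℕ → G}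
    (h : ∀ i < k₁ + 7 + K, v i = v' i) :
    Extra p n t V ops k₁ K v = Extra p n t V ops k₁ K v' := by
  unfold Extra
  rw [sysV_congr n t ops k₁ K hk h, progAt_congr ops 1 v v' (fun i hi => h i (by omega)),
    h 0 (by omega)]

/-- the family of systems is definable -/
theorem dsys_sysV (hk : 1 + 2 * ops.length ≤ k₁) :
    DSys (k₁ + 7 + K) (fun v : ℕ → G => sysV p n t V ops k₁ K v) where
  I := DS.toD1 (ds_I hV n t ops k₁ K TS.id.tl' (TT.var 0)) fun v v' h => by
    rw [sysV_congr n t ops k₁ K hk h]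
  le := DS.toD2 (ds_le hV n t ops k₁ K TS.id.tl'.tl' (TT.var 0) (TT.var 1)) fun v v' h => by
    rw [sysV_congr n t ops k₁ K hk h]
  T := DS.toD1 ((ds_I hV n t ops k₁ K TS.id.tl' (TT.var 0)).and
    ((dcf_cfV (p := p) hV n ops).bf TS.id.tl' t (TT.var 0) (TT.var (k₁ + 5 + 1))).not)
    fun v v' h => by rw [sysV_congr n t ops k₁ K hk h]
  Rel j := DS.toD2 ((dcf_cfV (p := p) hV n ops).rr TS.id.tl'.tl' t (TT.var _) (TT.var _)
    (TT.var _) (TT.var _) (TT.var _) (TT.var _) (TT.var 0) (TT.var 1))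
    fun v v' h => by rw [sysV_congr n t ops k₁ K hk h]

lemma d1_extra (hk : 1 + 2 * ops.length ≤ k₁) :
    D1 (k₁ + 7 + K) (fun (v : ℕ → G) (_ : G) => Extra p n t V ops k₁ K v) :=
  DS.toD1 ((ds_extra hV n t ops k₁ K).subst TS.id.tl') fun v v' h => by
    rw [extra_congr n t ops k₁ K hk h]

end Def

lemma d1_and {m : ℕ} {P Q : (ℕ → G) → G → Prop} (h : D1 m P) (h' : D1 m Q) :
    D1 m (fun v z => P v z ∧ Q v z) where
  dep v n z hn := by
    funext x
    rw [h.dep v n z hn, h'.dep v n z hn]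
  df n hn s hs := (h.df n hn s hs).and (h'.df n hn s hs)

lemma progAt_surj (l : List (Op × G × G)) : ∀ (k : ℕ) (v : ℕ → G),
    (∀ i (hi : i < l.length), v (k + 2 * i) = (l[i]).2.1 ∧ v (k + 2 * i + 1) = (l[i]).2.2) →
    progAt (l.map Prod.fst) k v = l := by
  induction l with
  | nil => intro k v _; rfl
  | cons o l ih =>
    intro k v h
    have h0 := h 0 (by simp)
    have h1 := ih (k + 2) v (fun i hi => by
      have := h (i + 1) (by simpa using hi)
      simp only [List.getElem_cons_succ] at this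
      rw [show k + 2 + 2 * i = k + 2 * (i + 1) by ring]
      exact this)
    simp only [List.map_cons, progAt, h1]
    simp only [List.getElem_cons_zero, Nat.mul_zero, Nat.add_zero] at h0
    rw [h0.1, h0.2]

theorem stmtUnd : StmtUnd.{u} := by
  intro p _ G _ V hV n t hwf ⟨g₀, l, hadm, heng⟩
  classical
  obtain ⟨St, hSt, K, L, q0, qf, hK, hL, hmach⟩ := Mach.exists_machine
  set ops := l.map Prod.fst with hops
  set k₁ := 1 + 2 * ops.length with hk₁
  have HS := dsys_sysV (p := p) hV n t ops k₁ K le_rfl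
  refine undec_of_rel HS (d1_and (HS.good K L q0 qf) (d1_extra (p := p) hV n t ops k₁ K le_rfl))
    St hSt ?_ ?_
  · -- soundness
    rintro v Z m ⟨hG, hadm', htr, hpred⟩ hZ
    rw [hmach]
    obtain ⟨ν, hle, hseg⟩ := exists_nu (sysV p n t V ops k₁ K v) htr hpred (by
      rintro ⟨h, hh⟩
      refine hwf (v 0) (progAt ops 1 v) hadm' ⟨h, fun i => ⟨(hh i).1.1, (hh i).1.2.2.2.1, ?_⟩⟩
      exact not_not.1 (hh i).2)
    exact sound_nu _ ν hle (fun h hh => hh.1) hseg hL hK hZ hG
  · -- completeness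
    intro m hm
    obtain ⟨cf, hcf, hcf0⟩ := (hmach m).1 hm
    obtain ⟨N, c, hc0, hcN, hstep⟩ := exists_seq hcf
    set t0 : ℕ := 1 + m + ∑ i ∈ Finset.range (N + 1), ∑ j ∈ Finset.range (K + 1), c i j with ht0
    have hct : ∀ i ≤ N, ∀ j ≤ K, c i j < t0 := by
      intro i hi j hj
      have h1 : c i j ≤ ∑ j ∈ Finset.range (K + 1), c i j :=
        Finset.single_le_sum (f := fun j => c i j) (fun _ _ => Nat.zero_le _)
          (Finset.mem_range.2 (by omega))
      have h2 : ∑ j ∈ Finset.range (K + 1), c i j ≤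
          ∑ i ∈ Finset.range (N + 1), ∑ j ∈ Finset.range (K + 1), c i j :=
        Finset.single_le_sum (f := fun i => ∑ j ∈ Finset.range (K + 1), c i j)
          (fun _ _ => Nat.zero_le _) (Finset.mem_range.2 (by omega))
      omega
    obtain ⟨u₀, u₁, l', yT, yV, ν, -, -, -, -, -, e1, e2, e3, e4⟩ := heng (t0 + N)
    obtain ⟨τ₀, hτI, hτν⟩ := e2 t0 (by omega)
    obtain ⟨Z, hZI, hZν⟩ := e2 m (by omega)
    set f : ℕ → ℕ → ℕ := fun j i => if t0 ≤ i ∧ i ≤ t0 + N then c (i - t0) j else 0 with hf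
    have hfx : ∀ j, ∃ x : G, j ≤ K → ∀ k h, cII (run (C := carG p G) l (baseG p n V g₀)) u₀ u₁ l'
        yT k → cII (run (C := carG p G) l (baseG p n V g₀)) u₀ u₁ l' yT h → 1 ≤ ν k →
        (cRR (run (C := carG p G) l (baseG p n V g₀)) t u₀ u₁ l' yT yV x k h ↔ ν h = f j (ν k)) := by
      intro j
      by_cases hj : j ≤ K
      · obtain ⟨x, -, hx⟩ := e4 (f j) (fun i h1 h2 => by
          simp only [hf]
          split_ifs with hi
          · exact (hct _ (by omega) j hj).trans_le hi.1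
          · omega)
        exact ⟨x, fun _ => hx⟩
      · exact ⟨1, fun h => absurd h hj⟩
    choose x hx using hfx
    -- the assignment
    set v : ℕ → G := fun i =>
      if i = 0 then g₀ else
      if i < k₁ then (if i % 2 = 1 then (l.getD ((i - 1) / 2) (Op.pow, 1, 1)).2.1
        else (l.getD ((i - 1) / 2) (Op.pow, 1, 1)).2.2) else
      if i = k₁ then u₀ else if i = k₁ + 1 then u₁ else if i = k₁ + 2 then l' else
      if i = k₁ + 3 then yT else if i = k₁ + 4 then yV else if i = k₁ + 5 then τ₀ else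
      x (i - (k₁ + 6)) with hv
    have hlen : ops.length = l.length := by simp [hops]
    have hprog : progAt ops 1 v = l := by
      rw [hops]
      refine progAt_surj l 1 v fun i hi => ⟨?_, ?_⟩
      · simp only [hv]
        rw [if_neg (by omega), if_pos (by omega), if_pos (by omega),
          show (1 + 2 * i - 1) / 2 = i by omega, List.getD_eq_getElem _ _ hi]
      · simp only [hv]
        rw [if_neg (by omega), if_pos (by omega), if_neg (by omega),
          show (1 + 2 * i + 1 - 1) / 2 = i by omega, List.getD_eq_getElem _ _ hi]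
    have hv0 : v 0 = g₀ := by simp [hv]
    have hk1 : v k₁ = u₀ := by
      simp only [hv]
      rw [if_neg (by omega), if_neg (by omega), if_pos trivial]
    have hk2 : v (k₁ + 1) = u₁ := by
      simp only [hv]
      rw [if_neg (by omega), if_neg (by omega), if_neg (by omega), if_pos trivial]
    have hk3 : v (k₁ + 2) = l' := by
      simp only [hv]
      rw [if_neg (by omega), if_neg (by omega), if_neg (by omega), if_neg (by omega), if_pos trivial]
    have hk4 : v (k₁ + 3) = yT := by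
      simp only [hv]
      rw [if_neg (by omega), if_neg (by omega), if_neg (by omega), if_neg (by omega),
        if_neg (by omega), if_pos trivial]
    have hk5 : v (k₁ + 4) = yV := by
      simp only [hv]
      rw [if_neg (by omega), if_neg (by omega), if_neg (by omega), if_neg (by omega),
        if_neg (by omega), if_neg (by omega), if_pos trivial]
    have hk6 : v (k₁ + 5) = τ₀ := by
      simp only [hv]
      rw [if_neg (by omega), if_neg (by omega), if_neg (by omega), if_neg (by omega),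
        if_neg (by omega), if_neg (by omega), if_neg (by omega), if_pos trivial]
    have hk7 : ∀ j ≤ K, v (k₁ + 6 + min j K) = x j := by
      intro j hj
      simp only [hv]
      rw [if_neg (by omega), if_neg (by omega), if_neg (by omega), if_neg (by omega),
        if_neg (by omega), if_neg (by omega), if_neg (by omega), if_neg (by omega)]
      congr 1
      omega
    have hcv : cfV p n V ops v = run (C := carG p G) l (baseG p n V g₀) := by
      unfold cfV
      rw [hprog, hv0]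
    set c₀ := run (C := carG p G) l (baseG p n V g₀) with hc₀
    set S : Sys G := sysV p n t V ops k₁ K v with hS
    have hSe : S = sysF c₀ t u₀ u₁ l' yT yV τ₀ (fun j => v (k₁ + 6 + min j K)) := by
      rw [hS]
      unfold sysV
      rw [hcv, hk1, hk2, hk3, hk4, hk5, hk6]
    have hI : ∀ k, S.I k ↔ cII c₀ u₀ u₁ l' yT k := fun k => by rw [hSe]; rfl
    have hSle : ∀ h k, S.I h → S.I k → (S.le h k ↔ ν k ≤ ν h) := by
      intro h k hh hk
      rw [hI] at hh hk
      rw [hSe]
      show ¬ cBf c₀ t h k ↔ _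
      rw [e3 h k hh hk, not_lt]
    have hbd : ∀ h, S.I h → ν h ≤ t0 + N := fun h hh => e1 h ((hI h).1 hh)
    have hsurj : ∀ i ≤ t0 + N, ∃ h, S.I h ∧ ν h = i := by
      intro i hi
      obtain ⟨h, h1, h2⟩ := e2 i hi
      exact ⟨h, (hI h).2 h1, h2⟩
    have hT : ∀ h, S.T h ↔ S.I h ∧ ∃ i ≤ N, ν h = t0 + i := by
      intro h
      have : S.T h ↔ S.I h ∧ ¬ cBf c₀ t h τ₀ := by rw [hSe]; rfl
      rw [this]
      refine and_congr_right fun hh => ?_
      rw [e3 h τ₀ ((hI h).1 hh) hτI, hτν, not_lt]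
      have := hbd h hh
      constructor
      · intro h1
        exact ⟨ν h - t0, by omega, by omega⟩
      · rintro ⟨i, -, h1⟩
        omega
    refine ⟨v, Z, ⟨?_, ?_, ?_, ?_⟩, ?_⟩
    · refine complete_nu S ν hbd hsurj hSle (fun i => t0 + i) (fun a b hab => by
        show t0 + a < t0 + b
        omega) N le_rfl hT c (fun i hi j hj => by
          have := hct i hi j hj
          omega) ?_ hL hK hc0 hstep (by rw [hcN, hcf0]) ((hI Z).2 hZI) hZν
      intro j hj i hi h k hh hk hhν
      have : S.Rel j h k ↔ cRR c₀ t u₀ u₁ l' yT yV (v (k₁ + 6 + min j K)) h k := by rw [hSe]; rfl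
      rw [this, hk7 j hj, hx j hj h k ((hI h).1 hh) ((hI k).1 hk) (by omega), hhν]
      simp only [hf]
      rw [if_pos (by omega), Nat.add_sub_cancel_left]
    · rw [hprog, hv0]
      exact hadm
    · intro a ha b hb e he h1 h2
      rw [hSle _ _ ha hb] at h1
      rw [hSle _ _ hb he] at h2
      rw [hSle _ _ ha he]
      omega
    · intro k hk
      by_cases h0 : ν k = 0
      · left
        exact (idx_nu S ν hbd hsurj hSle 0 k hk).2 h0
      · right
        obtain ⟨h, hh, hhν⟩ := hsurj (ν k - 1) (by have := hbd k hk; omega)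
        refine ⟨h, (succ_nu S ν hbd hsurj hSle h k hh hk).2 (by omega)⟩
    · exact (idx_nu S ν hbd hsurj hSle m Z ((hI Z).2 hZI)).2 hZν

end Pool.Agent.Helper85.ProF
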