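import Pool.Agent.Helper85.ProP.GSys

/-!
A calculus of definable predicates of an assignment.
-/

set_option autoImplicit false

namespace Pool.Agent.Helper85.ProF

open Function Pool.Agent.Helper85.ProP

section

variable {G : Type*} [Group G]

/-- the tail of an assignment -/
def tl {α : Type*} (w : ℕ → α) : ℕ → α := fun i => w (i + 1)

/-- adding an element in front of an assignment -/
def cs {α : Type*} (a : α) (w : ℕ → α) : ℕ → α
  | 0 => a
  | i + 1 => w i

lemma tl_cs {α : Type*} (a : α) (w : ℕ → α) : tl (cs a w) = w := rfl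

/-- uniformly given by a term -/
def TT (t : (ℕ → G) → G) : Prop :=
  ∀ (n : ℕ) (s : ℕ → (ℕ → G) → G), (∀ i, TF n (s i)) → TF n (fun v => t (fun i => s i v))

/-- uniformly definable -/
def DS (P : (ℕ → G) → Prop) : Prop :=
  ∀ (n : ℕ) (s : ℕ → (ℕ → G) → G), (∀ i, TF n (s i)) → DF n (fun v => P (fun i => s i v))

lemma TT.var (i : ℕ) : TT (fun w : ℕ → G => w i) := fun _ _ hs => hs i

lemma TT.one : TT (fun _ : ℕ → G => (1 : G)) := fun n _ _ => TF.one n

lemma TT.mul {s t : (ℕ → G) → G} (hs : TT s) (ht : TT t) : TT (fun w => s w * t w) :=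
  fun n r hr => (hs n r hr).mul (ht n r hr)

lemma TT.inv {s : (ℕ → G) → G} (hs : TT s) : TT (fun w => (s w)⁻¹) :=
  fun n r hr => (hs n r hr).inv

lemma TT.pow {s : (ℕ → G) → G} (hs : TT s) (k : ℕ) : TT (fun w => (s w) ^ k) := by
  induction k with
  | zero => simpa using TT.one
  | succ k ih =>
    simp only [pow_succ]
    exact ih.mul hs

lemma TT.cm {s t : (ℕ → G) → G} (hs : TT s) (ht : TT t) : TT (fun w => ProP.cm (s w) (t w)) :=
  ((hs.mul ht).mul hs.inv).mul ht.inv

lemma TT.subst {t : (ℕ → G) → G} (ht : TT t) {σ : (ℕ → G) → (ℕ → G)}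
    (hσ : ∀ i, TT (fun w => σ w i)) : TT (fun w => t (σ w)) :=
  fun n r hr => ht n (fun i v => σ (fun j => r j v) i) (fun i => hσ i n r hr)

lemma TT.tl {t : (ℕ → G) → G} (ht : TT t) : TT (fun w => t (tl w)) :=
  ht.subst fun i => TT.var (i + 1)

/-- uniformly given substitutions -/
def TS (σ : (ℕ → G) → (ℕ → G)) : Prop := ∀ i, TT (fun w => σ w i)

lemma TS.id : TS (fun w : ℕ → G => w) := fun i => TT.var i

lemma TS.tl {σ : (ℕ → G) → (ℕ → G)} (hσ : TS σ) : TS (fun w => σ (tl w)) := fun i => (hσ i).tl

lemma TS.tl' {σ : (ℕ → G) → (ℕ → G)} (hσ : TS σ) : TS (fun w => ProF.tl (σ w)) :=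
  fun i => hσ (i + 1)

lemma TS.cs {σ : (ℕ → G) → (ℕ → G)} (hσ : TS σ) {t : (ℕ → G) → G} (ht : TT t) :
    TS (fun w => cs (t w) (σ w)) := fun i =>
  match i with
  | 0 => ht
  | i + 1 => hσ i

namespace DS

variable {P Q : (ℕ → G) → Prop}

lemma subst (h : DS P) {σ : (ℕ → G) → (ℕ → G)} (hσ : TS σ) : DS (fun w => P (σ w)) :=
  fun n r hr => h n (fun i v => σ (fun j => r j v) i) (fun i => hσ i n r hr)

lemma eq {s t : (ℕ → G) → G} (hs : TT s) (ht : TT t) : DS (fun w => s w = t w) :=
  fun n r hr => DF.eq (hs n r hr) (ht n r hr)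

lemma not (h : DS P) : DS (fun w => ¬ P w) := fun n r hr => (h n r hr).not

lemma and (h : DS P) (h' : DS Q) : DS (fun w => P w ∧ Q w) :=
  fun n r hr => (h n r hr).and (h' n r hr)

lemma or (h : DS P) (h' : DS Q) : DS (fun w => P w ∨ Q w) :=
  fun n r hr => (h n r hr).or (h' n r hr)

lemma imp (h : DS P) (h' : DS Q) : DS (fun w => P w → Q w) :=
  fun n r hr => (h n r hr).imp (h' n r hr)

lemma of_iff (h : DS P) (h' : ∀ w, P w ↔ Q w) : DS Q :=
  fun n r hr => (h n r hr).of_iff fun _ => h' _

lemma true : DS (fun _ : ℕ → G => True) := fun _ _ _ => DF.true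

lemma false : DS (fun _ : ℕ → G => False) := fun _ _ _ => DF.false

lemma const (c : Prop) : DS (fun _ : ℕ → G => c) := by
  by_cases hc : c
  · exact DS.true.of_iff fun _ => by simp [hc]
  · exact DS.false.of_iff fun _ => by simp [hc]

lemma ex {R : (ℕ → G) → G → Prop} (h : DS (fun w => R (tl w) (w 0))) :
    DS (fun w => ∃ y, R w y) := by
  intro n r hr
  refine DF.ex (R := fun v y => R (fun i => r i v) y) ?_ ?_
  · intro v z y
    have : (fun i => r i (update v n z)) = fun i => r i v := funext fun i => (hr i).upd le_rfl _ _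
    rw [this]
  · have h1 := h (n + 1) (fun i => match i with
      | 0 => fun v => v n
      | i + 1 => r i) (fun i => match i with
      | 0 => TF.last n
      | i + 1 => (hr i).succ)
    exact h1

lemma all {R : (ℕ → G) → G → Prop} (h : DS (fun w => R (tl w) (w 0))) :
    DS (fun w => ∀ y, R w y) := by
  have := (DS.ex (R := fun w y => ¬ R w y) h.not).not
  exact this.of_iff fun w => by simp

lemma ballFin {ι : Type*} (s : Finset ι) {R : ι → (ℕ → G) → Prop} (h : ∀ i ∈ s, DS (R i)) :
    DS (fun w => ∀ i ∈ s, R i w) :=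
  fun n r hr => DF.ballFin s fun i hi => h i hi n r hr

lemma bexList {ι : Type*} (s : List ι) {R : ι → (ℕ → G) → Prop} (h : ∀ i ∈ s, DS (R i)) :
    DS (fun w => ∃ i ∈ s, R i w) :=
  fun n r hr => DF.bexList s fun i hi => h i hi n r hr

end DS

/-! ### comparison with `D1`, `D2` -/

lemma DS.toD1 {m : ℕ} {P : (ℕ → G) → G → Prop} (h : DS (fun w => P (tl w) (w 0)))
    (hd : ∀ v v' : ℕ → G, (∀ i < m, v i = v' i) → P v = P v') : D1 m P where
  dep v n z hn := hd _ _ fun i hi => update_of_ne (by omega) _ _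
  df n hn s hs := by
    have h1 := h n (fun i => match i with
      | 0 => s
      | i + 1 => if i < n then fun v => v i else fun _ => 1) (fun i => match i with
      | 0 => hs
      | i + 1 => by
        by_cases hi : i < n
        · simp only [hi, if_true]
          exact TF.var hi
        · simp only [hi, if_false]
          exact TF.one n)
    refine h1.of_iff fun v => ?_
    show P (fun i => (if i < n then fun v : ℕ → G => v i else fun _ => 1) v) (s v) ↔ P v (s v)
    rw [hd (fun i => (if i < n then fun v : ℕ → G => v i else fun _ => 1) v) v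
      (fun i hi => by simp [show i < n by omega])]

lemma DS.toD2 {m : ℕ} {P : (ℕ → G) → G → G → Prop} (h : DS (fun w => P (tl (tl w)) (w 0) (w 1)))
    (hd : ∀ v v' : ℕ → G, (∀ i < m, v i = v' i) → P v = P v') : D2 m P where
  dep v n z hn := hd _ _ fun i hi => update_of_ne (by omega) _ _
  df n hn s t hs ht := by
    have h1 := h n (fun i => match i with
      | 0 => s
      | 1 => t
      | i + 2 => if i < n then fun v => v i else fun _ => 1) (fun i => match i with
      | 0 => hs
      | 1 => ht
      | i + 2 => by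
        by_cases hi : i < n
        · simp only [hi, if_true]
          exact TF.var hi
        · simp only [hi, if_false]
          exact TF.one n)
    refine h1.of_iff fun v => ?_
    show P (fun i => (if i < n then fun v : ℕ → G => v i else fun _ => 1) v) (s v) (t v) ↔
      P v (s v) (t v)
    rw [hd (fun i => (if i < n then fun v : ℕ → G => v i else fun _ => 1) v) v
      (fun i hi => by simp [show i < n by omega])]

lemma DS.ofD1 {P : G → Prop} (h : D1 0 (fun _ : ℕ → G => P)) {t : (ℕ → G) → G} (ht : TT t) :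
    DS (fun w => P (t w)) :=
  fun n r hr => h.df n (Nat.zero_le n) _ (ht n r hr)

end

end Pool.Agent.Helper85.ProF
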