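import Pool.Agent.Helper85.ProF.Calc
import Pool.Agent.Helper30.Full.GoalsL

/-!
Definability of the configurations obtained by programs and of their formulas.
-/

set_option autoImplicit false
set_option linter.checkUnivs false

namespace Pool.Agent.Helper85.ProF

open Function Pool.Agent.Helper85.ProP Pool.Agent.Helper30.Full

universe u

variable {G : Type u} [Group G] {p : ℕ}

/-- definable families of configurations -/
structure DCf (c : (ℕ → G) → Cf (carG p G)) : Prop where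
  S : DS (fun w => (c (tl w)).S (w 0))
  X1 : DS (fun w => (c (tl w)).X1 (w 0))
  X2 : DS (fun w => (c (tl w)).X2 (w 0))

variable {c : (ℕ → G) → Cf (carG p G)}

section

variable (H : DCf c) {σ : (ℕ → G) → (ℕ → G)} (hσ : TS σ) {t : (ℕ → G) → G} (ht : TT t)

include H hσ ht

lemma DCf.S' : DS (fun w => (c (σ w)).S (t w)) := H.S.subst (hσ.cs ht)

lemma DCf.X1' : DS (fun w => (c (σ w)).X1 (t w)) := H.X1.subst (hσ.cs ht)

lemma DCf.X2' : DS (fun w => (c (σ w)).X2 (t w)) := H.X2.subst (hσ.cs ht)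

end

section

variable (H : DCf c) {σ : (ℕ → G) → (ℕ → G)} (hσ : TS σ) {u k l : (ℕ → G) → G} (hu : TT u)
  (hk : TT k) (hl : TT l)

include H hσ

lemma DCf.le0 (hu : TT u) (hk : TT k) : DS (fun w => cLe0 (c (σ w)) (u w) (k w)) := by
  unfold cLe0
  refine DS.all ((H.X1' hσ.tl (TT.var 0)).imp (DS.ex ((H.X1' hσ.tl.tl (TT.var 0)).and
    (H.X2' hσ.tl.tl ?_))))
  exact (hk.tl.tl.cm (TT.var 1)).mul (hu.tl.tl.cm (TT.var 0)).inv

lemma DCf.le1 (hu : TT u) (hk : TT k) : DS (fun w => cLe1 (c (σ w)) (u w) (k w)) := by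
  unfold cLe1
  refine DS.all ((H.X1' hσ.tl (TT.var 0)).imp (DS.ex ((H.X1' hσ.tl.tl (TT.var 0)).and
    (DS.ex ((H.X1' hσ.tl.tl.tl (TT.var 0)).and (H.X2' hσ.tl.tl.tl ?_))))))
  exact ((hk.tl.tl.tl.cm (TT.var 2)).mul (hu.tl.tl.tl.cm (TT.var 1)).inv).mul
    ((TT.var 0).pow p).inv

lemma DCf.sm1 (hk : TT k) : DS (fun w => cSm1 (c (σ w)) (k w)) := by
  unfold cSm1
  refine DS.all ((H.X1' hσ.tl (TT.var 0)).imp (DS.ex ((H.X1' hσ.tl.tl (TT.var 0)).and
    (H.X2' hσ.tl.tl ?_))))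
  exact (hk.tl.tl.cm (TT.var 1)).mul ((TT.var 0).pow p).inv

lemma DCf.dd (hl : TT l) (hk : TT k) {x : (ℕ → G) → G} (hx : TT x) :
    DS (fun w => cDD (c (σ w)) (l w) (k w) (x w)) := by
  unfold cDD
  refine DS.ex ((H.X1' hσ.tl (TT.var 0)).and (DS.ex ((H.X1' hσ.tl.tl (TT.var 0)).and
    (DS.ex ((H.X1' hσ.tl.tl.tl (TT.var 0)).and ((H.X2' hσ.tl.tl.tl ?_).and
      (H.X2' hσ.tl.tl.tl ?_)))))))
  · exact (hx.tl.tl.tl.mul (TT.var 2).inv).mul (hl.tl.tl.tl.cm (TT.var 1)).inv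
  · exact (hk.tl.tl.tl.cm (TT.var 2)).mul ((hk.tl.tl.tl.pow p).cm (TT.var 0)).inv

lemma DCf.ii {u₀ u₁ yT : (ℕ → G) → G} (h0 : TT u₀) (h1 : TT u₁) (hl : TT l) (hy : TT yT)
    (hk : TT k) : DS (fun w => cII (c (σ w)) (u₀ w) (u₁ w) (l w) (yT w) (k w)) :=
  (H.S' hσ hk).and ((H.le0 hσ h0 hk).and ((H.le1 hσ hk h1).and ((H.sm1 hσ hk).not.and
    (H.dd hσ hl hk hy).not)))

omit H hσ in
lemma tt_pA {h : (ℕ → G) → G} (hh : TT h) (t : ℕ) :
    TT (fun w => (carG p G).pA^[t] (h w)) := by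
  induction t with
  | zero => exact hh
  | succ t ih =>
    simp only [Function.iterate_succ_apply']
    exact ih.pow p

lemma DCf.bf (t : ℕ) {h : (ℕ → G) → G} (hh : TT h) (hk : TT k) :
    DS (fun w => cBf (c (σ w)) t (h w) (k w)) := H.le1 hσ (tt_pA hh t) hk

lemma DCf.rr (t : ℕ) {u₀ u₁ yT yV x h : (ℕ → G) → G} (h0 : TT u₀) (h1 : TT u₁) (hl : TT l)
    (hy : TT yT) (hyV : TT yV) (hx : TT x) (hk : TT k) (hh : TT h) :
    DS (fun w => cRR (c (σ w)) t (u₀ w) (u₁ w) (l w) (yT w) (yV w) (x w) (k w) (h w)) := by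
  unfold cRR
  refine DS.all ((H.ii hσ.tl h0.tl h1.tl hl.tl hy.tl (TT.var 0)).imp
    ((H.bf hσ.tl t hk.tl (TT.var 0)).not.imp ((H.bf hσ.tl t (TT.var 0) hk.tl).not.imp
      (DS.ex ((H.ii hσ.tl.tl h0.tl.tl h1.tl.tl hl.tl.tl hy.tl.tl (TT.var 0)).and
        ((H.bf hσ.tl.tl t hh.tl.tl (TT.var 0)).not.and ((H.bf hσ.tl.tl t (TT.var 0) hh.tl.tl).not.and
          (H.dd hσ.tl.tl hl.tl.tl (TT.var 1) ?_))))))))
  exact hx.tl.tl.mul (((TT.var 0).mul hyV.tl.tl).mul (TT.var 0).inv).inv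

end

/-- operations preserve definability -/
theorem DCf.ap (H : DCf c) (o : Op) {u x : (ℕ → G) → G} (hu : TT u) (hx : TT x) :
    DCf (fun w => o.ap (u w) (x w) (c w)) := by
  have hσ : TS (fun w : ℕ → G => tl w) := TS.id.tl'
  cases o with
  | stab =>
    refine ⟨?_, H.X1, H.X2⟩
    refine H.S.and (DS.ex ((H.X1' hσ.tl (TT.var 0)).and (H.X2' hσ.tl ?_)))
    exact ((TT.var 1).cm hx.tl.tl).mul (hu.tl.tl.cm (TT.var 0)).inv
  | quo =>
    refine ⟨H.S, H.X1, ?_⟩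
    refine DS.ex ((H.X1' hσ.tl (TT.var 0)).and (H.X2' hσ.tl ?_))
    exact (TT.var 1).mul (hu.tl.tl.cm (TT.var 0)).inv
  | ker =>
    refine ⟨H.S, ?_, H.X2⟩
    exact H.X1.and (H.X2' hσ (hu.tl.cm (TT.var 0)))
  | pm =>
    refine ⟨H.S, ?_, H.X2⟩
    refine H.X1.and (DS.ex ((H.X1' hσ.tl (TT.var 0)).and (H.X2' hσ.tl ?_)))
    exact (TT.var 1).mul ((TT.var 0).pow p).inv
  | sect =>
    refine ⟨H.S, H.X1, ?_⟩
    refine DS.ex ((H.X1' hσ.tl (TT.var 0)).and (H.X2' hσ.tl ?_))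
    exact (TT.var 1).mul ((TT.var 0).pow p).inv
  | pow =>
    refine ⟨?_, H.X1, H.X2⟩
    exact DS.ex ((H.S' hσ.tl (TT.var 0)).and (DS.eq (TT.var 1) ((TT.var 0).pow p)))

/-! ### programs -/

/-- the program of shape `ops` with the parameters `v k`, `v (k + 1)`, … -/
def progAt : List Op → ℕ → (ℕ → G) → List (Op × G × G)
  | [], _, _ => []
  | o :: os, k, v => (o, v k, v (k + 1)) :: progAt os (k + 2) v

theorem DCf.run' (ops : List Op) : ∀ (k : ℕ) {c : (ℕ → G) → Cf (carG p G)}, DCf c →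
    DCf (fun w => run (C := carG p G) (progAt ops k w) (c w)) := by
  induction ops with
  | nil => intro k c H; exact H
  | cons o os ih =>
    intro k c H
    exact ih (k + 2) (H.ap o (TT.var k) (TT.var (k + 1)))

lemma progAt_congr (ops : List Op) : ∀ (k : ℕ) (v v' : ℕ → G),
    (∀ i < k + 2 * ops.length, v i = v' i) → progAt ops k v = progAt ops k v' := by
  induction ops with
  | nil => intro k v v' _; rfl
  | cons o os ih =>
    intro k v v' h
    have e1 : v k = v' k := h k (by simp)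
    have e2 : v (k + 1) = v' (k + 1) := h (k + 1) (by simp; omega)
    have e3 := ih (k + 2) v v' (fun i hi => h i (by simp; omega))
    simp only [progAt, e1, e2, e3]

/-! ### the basic configuration -/

variable {V : Subgroup G} (hV : D1 0 (fun _ : ℕ → G => (· ∈ V)))

include hV

lemma ds_cent {t : (ℕ → G) → G} (ht : TT t) :
    DS (fun w => t w ∈ Subgroup.centralizer (V : Set G)) := by
  refine (DS.all (R := fun w y => y ∈ V → y * t w = t w * y)
    ((DS.ofD1 hV (TT.var 0)).imp (DS.eq ((TT.var 0).mul ht.tl) (ht.tl.mul (TT.var 0))))).of_iff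
      fun w => ?_
  rw [Subgroup.mem_centralizer_iff]
  rfl

lemma ds_S0 {g₀ s : (ℕ → G) → G} (hg : TT g₀) (hs : TT s) :
    DS (fun w => S0 V (g₀ w) (s w)) := by
  unfold S0
  exact (ds_cent hV (hs.cm hg)).and (DS.all ((ds_cent hV ((TT.var 0).cm hg.tl)).imp
    (ds_cent hV (hs.tl.cm (TT.var 0)))))

lemma ds_baseS (n : ℕ) {g₀ s : (ℕ → G) → G} (hg : TT g₀) (hs : TT s) :
    DS (fun w => (baseG p n V (g₀ w)).S (s w)) := by
  show DS (fun w => ∃ r, S0 V (g₀ w) r ∧ s w = r ^ p ^ n)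
  exact DS.ex ((ds_S0 hV hg.tl (TT.var 0)).and (DS.eq hs.tl ((TT.var 0).pow _)))

lemma dcf_base (n : ℕ) : DCf (fun v => baseG p n V (v 0)) :=
  ⟨ds_baseS hV n (TT.var 1) (TT.var 0), DS.ofD1 hV (TT.var 0), DS.eq (TT.var 0) TT.one⟩

lemma ds_adm (n : ℕ) (ops : List Op) : ∀ k : ℕ,
    DS (fun w => ∀ o ∈ progAt ops k w, (baseG p n V (w 0)).S o.2.1 ∧ o.2.2 ∈ V) := by
  induction ops with
  | nil => intro k; exact DS.true.of_iff fun w => by simp [progAt]
  | cons o os ih =>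
    intro k
    have h1 : DS (fun w => (baseG p n V (w 0)).S (w k) ∧ w (k + 1) ∈ V) :=
      (ds_baseS hV n (TT.var 0) (TT.var k)).and (DS.ofD1 hV (TT.var (k + 1)))
    exact (h1.and (ih (k + 2))).of_iff fun w => by
      simp only [progAt, List.forall_mem_cons]

end Pool.Agent.Helper85.ProF
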